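import Pool.Agent.R344.TA.A
import Pool.Agent.Results.MP_0a5adf_nt.LargeExcursions

/-! The maximum excursions of all terms of almost all trajectories. -/

set_option autoImplicit false

namespace Pool.Agent.Results.MP_0deaf3_nt.ExcursionsOfAllTerms

/-- the `3x+1` function -/
def T (n : ℕ) : ℕ := if n % 2 = 0 then n / 2 else (3 * n + 1) / 2

open Pool.Agent.Results.MP_0a5adf_nt.LargeExcursions (count ExceedsBefore StaysAbove)

/-- bad starting values -/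
def A (ε : ℝ) : Set ℕ := {m : ℕ | 1 ≤ m ∧ (ExceedsBefore ((m : ℝ) ^ (1 + ε)) ((m : ℝ) ^ (1 / 2 : ℝ)) m ∨
  StaysAbove ((m : ℝ) ^ (1 / 2 : ℝ)) m)}

/-- number of bad starting values up to `X` -/
noncomputable def g (ε X : ℝ) : ℝ := (Set.ncard {a : ℕ | a ∈ A ε ∧ 1 ≤ a ∧ (a : ℝ) ≤ X} : ℝ)

theorem fin_le (P : ℕ → Prop) (X : ℝ) : {a : ℕ | P a ∧ 1 ≤ a ∧ (a : ℝ) ≤ X}.Finite := by
  apply (Set.finite_Iic ⌊X⌋₊).subset
  rintro n ⟨_, _, h3⟩
  exact Nat.le_floor h3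

theorem g_le {ε X : ℝ} (hX : 0 ≤ X) : g ε X ≤ X := by
  unfold g
  have hsub : {a : ℕ | a ∈ A ε ∧ 1 ≤ a ∧ (a : ℝ) ≤ X} ⊆ ((Finset.Icc 1 ⌊X⌋₊ : Finset ℕ) : Set ℕ) := by
    rintro n ⟨_, h2, h3⟩
    rw [Finset.coe_Icc]
    exact ⟨h2, Nat.le_floor h3⟩
  have h2 := Set.ncard_le_ncard hsub (Finset.finite_toSet _)
  rw [Set.ncard_coe_finset, Nat.card_Icc] at h2
  calc (Set.ncard {a : ℕ | a ∈ A ε ∧ 1 ≤ a ∧ (a : ℝ) ≤ X} : ℝ) ≤ ((⌊X⌋₊ + 1 - 1 : ℕ) : ℝ) := by exact_mod_cast h2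
    _ = ⌊X⌋₊ := by simp
    _ ≤ X := Nat.floor_le hX

theorem g_half {ε : ℝ} (hε : 0 < ε) (hε1 : ε ≤ 1 / 42) {X : ℝ} (hX : 2 ≤ X) (hV : X ≤ (X / 2) ^ (1 + ε)) :
    g ε X ≤ g ε (X / 2) + 140000 * (Real.log X) ^ 5 * (8 * X ^ (1 - ε)) := by
  have hX0 : 0 < X := by linarith
  have hy : 1 ≤ (X / 2) ^ (1 / 2 : ℝ) := Real.one_le_rpow (by linarith) (by norm_num)
  have h1 := Pool.Agent.Results.MP_0a5adf_nt.LargeExcursions.result.1 X ((X / 2) ^ (1 / 2 : ℝ)) ((X / 2) ^ (1 + ε))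
    hX hy hV
  have h2 : g ε X ≤ g ε (X / 2) + count (fun n => ExceedsBefore ((X / 2) ^ (1 + ε)) ((X / 2) ^ (1 / 2 : ℝ)) n ∨
      StaysAbove ((X / 2) ^ (1 / 2 : ℝ)) n) X := by
    unfold g count
    have hsub : {a : ℕ | a ∈ A ε ∧ 1 ≤ a ∧ (a : ℝ) ≤ X} ⊆ {a : ℕ | a ∈ A ε ∧ 1 ≤ a ∧ (a : ℝ) ≤ X / 2} ∪
        {n : ℕ | 1 ≤ n ∧ (n : ℝ) ≤ X ∧ (ExceedsBefore ((X / 2) ^ (1 + ε)) ((X / 2) ^ (1 / 2 : ℝ)) n ∨
          StaysAbove ((X / 2) ^ (1 / 2 : ℝ)) n)} := by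
      rintro m ⟨hA, hm1, hmX⟩
      rcases le_or_gt (m : ℝ) (X / 2) with h | h
      · exact Or.inl ⟨hA, hm1, h⟩
      · refine Or.inr ⟨hm1, hmX, ?_⟩
        have e1 : (X / 2) ^ (1 + ε) ≤ (m : ℝ) ^ (1 + ε) :=
          Real.rpow_le_rpow (by positivity) h.le (by linarith)
        have e2 : (X / 2) ^ (1 / 2 : ℝ) ≤ (m : ℝ) ^ (1 / 2 : ℝ) :=
          Real.rpow_le_rpow (by positivity) h.le (by norm_num)
        rcases hA.2 with ⟨k, k1, k2⟩ | h3
        · exact Or.inl ⟨k, lt_of_le_of_lt e1 k1, fun j hj => lt_of_le_of_lt e2 (k2 j hj)⟩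
        · exact Or.inr fun k => lt_of_le_of_lt e2 (h3 k)
    have hf2 : {n : ℕ | 1 ≤ n ∧ (n : ℝ) ≤ X ∧ (ExceedsBefore ((X / 2) ^ (1 + ε)) ((X / 2) ^ (1 / 2 : ℝ)) n ∨
          StaysAbove ((X / 2) ^ (1 / 2 : ℝ)) n)}.Finite := by
      apply (Set.finite_Iic ⌊X⌋₊).subset
      rintro n ⟨_, h3, _⟩
      exact Nat.le_floor h3
    have h3 := (Set.ncard_le_ncard hsub ((fin_le _ _).union hf2)).trans (Set.ncard_union_le _ _)
    exact_mod_cast h3
  refine h2.trans (add_le_add le_rfl (h1.trans ?_))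
  apply mul_le_mul_of_nonneg_left _ (by
    have := Real.log_nonneg (by linarith : 1 ≤ X)
    positivity)
  have hh : 0 < X / 2 := by positivity
  have hXne : X ≠ 0 := hX0.ne'
  have e1 : X ^ 2 / (X / 2) ^ (1 + ε) ≤ 4 * X ^ (1 - ε) := by
    rw [Real.div_rpow hX0.le (by norm_num), div_div_eq_mul_div]
    have h4 : X ^ (2 : ℕ) = X ^ (1 - ε) * X ^ (1 + ε) := by
      rw [← Real.rpow_add hX0, ← Real.rpow_natCast]
      congr 1
      push_cast; ring
    rw [h4]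
    have h5 : (2 : ℝ) ^ (1 + ε) ≤ 4 := by
      calc (2 : ℝ) ^ (1 + ε) ≤ 2 ^ (2 : ℝ) := Real.rpow_le_rpow_of_exponent_le (by norm_num) (by linarith)
        _ = 4 := by norm_num
    have h6 : 0 < X ^ (1 + ε) := Real.rpow_pos_of_pos hX0 _
    have h7 : 0 ≤ X ^ (1 - ε) := (Real.rpow_pos_of_pos hX0 _).le
    rw [div_le_iff₀ h6]
    nlinarith [mul_nonneg h7 h6.le]
  have e2 : X / ((X / 2) ^ (1 / 2 : ℝ)) ^ ((1 : ℝ) / 21) ≤ 4 * X ^ (1 - ε) := by
    rw [← Real.rpow_mul hh.le]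
    have h4 : (1 / 2 : ℝ) * (1 / 21) = 1 / 42 := by norm_num
    rw [h4, Real.div_rpow hX0.le (by norm_num), div_div_eq_mul_div]
    have h5 : (2 : ℝ) ^ (1 / 42 : ℝ) ≤ 4 := by
      calc (2 : ℝ) ^ (1 / 42 : ℝ) ≤ 2 ^ (2 : ℝ) := Real.rpow_le_rpow_of_exponent_le (by norm_num) (by norm_num)
        _ = 4 := by norm_num
    have h6 : 0 < X ^ (1 / 42 : ℝ) := Real.rpow_pos_of_pos hX0 _
    rw [div_le_iff₀ h6]
    have h7 : X ≤ X ^ (1 - ε) * X ^ (1 / 42 : ℝ) := by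
      rw [← Real.rpow_add hX0]
      calc X = X ^ (1 : ℝ) := (Real.rpow_one X).symm
        _ ≤ X ^ (1 - ε + 1 / 42) := Real.rpow_le_rpow_of_exponent_le (by linarith) (by linarith)
    have h8 : 0 ≤ (2 : ℝ) ^ (1 / 42 : ℝ) := by positivity
    nlinarith
  linarith

/-- a power saving for the number of bad starting values -/
theorem g_power {ε : ℝ} (hε : 0 < ε) (hε1 : ε ≤ 1 / 42) : ∃ K : ℝ, 0 < K ∧ ∀ X : ℝ, 1 ≤ X →
    g ε X ≤ K * X ^ (1 - ε / 2) := by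
  set c : ℝ := 1 - ε / 2 with hc
  have hc0 : 0 < c := by rw [hc]; linarith
  set D : ℝ := 140000 * 8 * (10 / ε) ^ 5 with hD
  have hD0 : 0 < D := by positivity
  set X1 : ℝ := 2 ^ ((1 + ε) / ε) with hX1
  have hX1two : 2 ≤ X1 := by
    calc (2 : ℝ) = 2 ^ (1 : ℝ) := (Real.rpow_one 2).symm
      _ ≤ X1 := by
        apply Real.rpow_le_rpow_of_exponent_le (by norm_num)
        rw [le_div_iff₀ hε]; linarith
  set θ : ℝ := (2 : ℝ) ^ (-c) with hθ
  have hθ0 : 0 < θ := Real.rpow_pos_of_pos (by norm_num) _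
  have hθ1 : θ < 1 := Real.rpow_lt_one_of_one_lt_of_neg (by norm_num) (by linarith)
  set K : ℝ := max (X1 ^ (ε / 2)) (D / (1 - θ)) with hK
  have hK0 : 0 < K := lt_of_lt_of_le (Real.rpow_pos_of_pos (by linarith) _) (le_max_left _ _)
  refine ⟨K, hK0, ?_⟩
  have key : ∀ n : ℕ, ∀ X : ℝ, 1 ≤ X → X < 2 ^ n → g ε X ≤ K * X ^ c := by
    intro n
    induction n with
    | zero => intro X h1 h2; rw [pow_zero] at h2; linarith
    | succ n ih =>
      intro X h1 h2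
      have hX0 : 0 < X := by linarith
      have hXc : 0 < X ^ c := Real.rpow_pos_of_pos hX0 _
      rcases lt_or_ge X X1 with h | h
      · calc g ε X ≤ X := g_le hX0.le
          _ = X ^ (ε / 2) * X ^ c := by
            rw [← Real.rpow_add hX0, hc]
            have : ε / 2 + (1 - ε / 2) = 1 := by ring
            rw [this, Real.rpow_one]
          _ ≤ X1 ^ (ε / 2) * X ^ c := by
            apply mul_le_mul_of_nonneg_right _ hXc.le
            exact Real.rpow_le_rpow hX0.le h.le (by linarith)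
          _ ≤ K * X ^ c := mul_le_mul_of_nonneg_right (le_max_left _ _) hXc.le
      · have hX2 : 2 ≤ X := hX1two.trans h
        have hV : X ≤ (X / 2) ^ (1 + ε) := by
          have e1 : (2 : ℝ) ^ (1 + ε) ≤ X ^ ε := by
            calc (2 : ℝ) ^ (1 + ε) = X1 ^ ε := by
                  rw [hX1, ← Real.rpow_mul (by norm_num)]
                  congr 1
                  field_simp
              _ ≤ X ^ ε := Real.rpow_le_rpow (by linarith) h hε.le
          rw [Real.div_rpow hX0.le (by norm_num), le_div_iff₀ (Real.rpow_pos_of_pos (by norm_num) _)]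
          calc X * 2 ^ (1 + ε) ≤ X * X ^ ε := mul_le_mul_of_nonneg_left e1 hX0.le
            _ = X ^ (1 + ε) := by rw [Real.rpow_add hX0, Real.rpow_one]
        have e1 := g_half hε hε1 hX2 hV
        have e2 := ih (X / 2) (by linarith) (by rw [pow_succ] at h2; linarith)
        have e3 : (X / 2) ^ c = θ * X ^ c := by
          rw [Real.div_rpow hX0.le (by norm_num), hθ, Real.rpow_neg (by norm_num), div_eq_mul_inv, mul_comm]
        have e4 : 140000 * (Real.log X) ^ 5 * (8 * X ^ (1 - ε)) ≤ D * X ^ c := by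
          have h5 : Real.log X ≤ X ^ (ε / 10) / (ε / 10) := Real.log_le_rpow_div hX0.le (by positivity)
          have h6 : (Real.log X) ^ 5 ≤ (X ^ (ε / 10) / (ε / 10)) ^ 5 :=
            pow_le_pow_left₀ (Real.log_nonneg h1) h5 5
          have h7 : (X ^ (ε / 10) / (ε / 10)) ^ 5 = (10 / ε) ^ 5 * X ^ (ε / 2) := by
            rw [div_pow, ← Real.rpow_natCast (X ^ (ε / 10)), ← Real.rpow_mul hX0.le]
            have : ε / 10 * ((5 : ℕ) : ℝ) = ε / 2 := by push_cast; ring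
            rw [this]
            field_simp
          have h8 : X ^ (ε / 2) * X ^ (1 - ε) = X ^ c := by
            rw [← Real.rpow_add hX0, hc]; congr 1; ring
          have h9 : 0 < X ^ (1 - ε) := Real.rpow_pos_of_pos hX0 _
          rw [h7] at h6
          calc 140000 * (Real.log X) ^ 5 * (8 * X ^ (1 - ε))
              ≤ 140000 * ((10 / ε) ^ 5 * X ^ (ε / 2)) * (8 * X ^ (1 - ε)) := by
                apply mul_le_mul_of_nonneg_right _ (by positivity)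
                linarith
            _ = D * (X ^ (ε / 2) * X ^ (1 - ε)) := by rw [hD]; ring
            _ = D * X ^ c := by rw [h8]
        have e5 : D ≤ K * (1 - θ) := by
          have : D / (1 - θ) ≤ K := le_max_right _ _
          rwa [div_le_iff₀ (by linarith)] at this
        rw [e3] at e2
        nlinarith
  intro X hX
  obtain ⟨n, hn⟩ := pow_unbounded_of_one_lt X (by norm_num : (1 : ℝ) < 2)
  exact key n X hX hn

/-- excursions of the terms of a trajectory which avoids the bad values -/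
theorem chain {ε : ℝ} (hε : 0 < ε) {Y : ℝ} (hY : 2 ≤ Y) {n : ℕ}
    (h : ¬ Pool.Agent.R344.TA.Meets (A ε) Y n) : ∀ l k : ℕ, (∀ j ≤ k + l, Y ≤ ((T^[j] n : ℕ) : ℝ)) →
      ((T^[k + l] n : ℕ) : ℝ) ≤ ((T^[k] n : ℕ) : ℝ) ^ (1 + ε) := by
  intro l
  induction l using Nat.strong_induction_on with
  | _ l ih =>
    intro k hk
    set m : ℕ := T^[k] n with hm
    have hmY : Y ≤ (m : ℝ) := hk k (by omega)
    have hm2 : (2 : ℝ) ≤ m := hY.trans hmY
    have hm0 : (0 : ℝ) < m := by linarith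
    have hmA : m ∉ A ε := by
      intro hA
      exact h ⟨k, hA, fun j hj => hk j (by omega)⟩
    have hm1 : 1 ≤ m := by
      have : (1 : ℝ) ≤ m := by linarith
      exact_mod_cast this
    have hE : ¬ ExceedsBefore ((m : ℝ) ^ (1 + ε)) ((m : ℝ) ^ (1 / 2 : ℝ)) m := fun h1 => hmA ⟨hm1, Or.inl h1⟩
    have hit : ∀ j : ℕ, T^[k + j] n = T^[j] m := by
      intro j
      rw [hm, ← Function.iterate_add_apply, add_comm j k]
    by_cases hall : ∀ j ≤ l, (m : ℝ) ^ (1 / 2 : ℝ) < ((T^[j] m : ℕ) : ℝ)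
    · by_contra hc
      push Not at hc
      rw [hit] at hc
      exact hE ⟨l, hc, hall⟩
    · push Not at hall
      obtain ⟨j, hj, hle⟩ := hall
      have hhalf : (m : ℝ) ^ (1 / 2 : ℝ) < m := by
        calc (m : ℝ) ^ (1 / 2 : ℝ) < (m : ℝ) ^ (1 : ℝ) :=
              Real.rpow_lt_rpow_of_exponent_lt (by linarith) (by norm_num)
          _ = m := Real.rpow_one _
      have hj0 : j ≠ 0 := by
        rintro rfl
        rw [Function.iterate_zero, id] at hle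
        linarith
      have h1 := ih (l - j) (by omega) (k + j) (fun i hi => hk i (by omega))
      have e1 : k + j + (l - j) = k + l := by omega
      rw [e1, hit j] at h1
      refine h1.trans ?_
      apply Real.rpow_le_rpow (by positivity) (hle.trans hhalf.le) (by linarith)

/-- For all `ε > 0` and `B` there is `K` such that for all `Y ≥ 2` and all `N` at most `K N / (log Y) ^ B` of the
integers `n ≤ N` have a trajectory with terms `m`, `z`, in this order and both before the first value below `Y`,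
such that `z > m ^ (1 + ε)`. -/
theorem result (ε : ℝ) (hε : 0 < ε) (B : ℕ) : ∃ K : ℝ, ∀ Y : ℝ, 2 ≤ Y → ∀ N : ℕ,
    ({n : ℕ | 1 ≤ n ∧ n ≤ N ∧ ∃ k l : ℕ, k ≤ l ∧ (∀ j ≤ l, Y ≤ ((T^[j] n : ℕ) : ℝ)) ∧
      ((T^[k] n : ℕ) : ℝ) ^ (1 + ε) < ((T^[l] n : ℕ) : ℝ)}.ncard : ℝ) ≤ K * N / (Real.log Y) ^ B := by
  set δ : ℝ := min ε (1 / 42) with hδ
  have hδ0 : 0 < δ := lt_min hε (by norm_num)
  obtain ⟨C, hC, hg⟩ := g_power hδ0 (min_le_right _ _)
  obtain ⟨K, hK⟩ := Pool.Agent.R344.TA.avoid (A := A δ) (c := 1 - δ / 2) (by linarith) hC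
    (fun X hX => hg X hX) B
  refine ⟨K, fun Y hY N => le_trans ?_ (hK Y hY N)⟩
  have hsub : {n : ℕ | 1 ≤ n ∧ n ≤ N ∧ ∃ k l : ℕ, k ≤ l ∧ (∀ j ≤ l, Y ≤ ((T^[j] n : ℕ) : ℝ)) ∧
      ((T^[k] n : ℕ) : ℝ) ^ (1 + ε) < ((T^[l] n : ℕ) : ℝ)} ⊆
      {n : ℕ | 1 ≤ n ∧ n ≤ N ∧ Pool.Agent.R344.TA.Meets (A δ) Y n} := by
    rintro n ⟨h1, h2, k, l, hkl, h3, h4⟩
    refine ⟨h1, h2, ?_⟩
    by_contra hc
    have h5 := chain hδ0 hY hc (l - k) k (fun j hj => h3 j (by omega))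
    have e1 : k + (l - k) = l := by omega
    rw [e1] at h5
    have h6 : (1 : ℝ) ≤ ((T^[k] n : ℕ) : ℝ) := by linarith [h3 k hkl]
    have h7 : ((T^[k] n : ℕ) : ℝ) ^ (1 + δ) ≤ ((T^[k] n : ℕ) : ℝ) ^ (1 + ε) :=
      Real.rpow_le_rpow_of_exponent_le h6 (by linarith [min_le_left ε (1 / 42 : ℝ)])
    linarith
  exact_mod_cast Set.ncard_le_ncard hsub ((Set.finite_Iic N).subset fun n hn => hn.2.1)

end Pool.Agent.Results.MP_0deaf3_nt.ExcursionsOfAllTerms
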